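import Mathlib
import Pool.Agent.MP_f29e3e_lc.Hard

-- part MP_f29e3e_lc.H57.Base
section

/-!
General tools: splitting of relations, transport and padding of instances, the basic gadget.
-/

set_option autoImplicit false

namespace Pool.Agent.MP_f29e3e_lc.H57

open Finset Pool.Agent.Lib.Cx Function

/-- A relation between numbers `K e + u` with small `u` splits. -/
theorem split_sum {m : ℕ} (c e u : Fin m → ℤ) (K U σ : ℤ) (hU : 0 ≤ U) (hu : ∀ i, |u i| ≤ U)
    (hc : ∑ i, |c i| ≤ σ) (hK : σ * U < K) (h : ∑ i, c i * (K * e i + u i) = 0) :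
    ∑ i, c i * e i = 0 ∧ ∑ i, c i * u i = 0 := by
  have h1 : |∑ i, c i * u i| ≤ σ * U := by
    refine (abs_sum_le_sum_abs _ _).trans ?_
    calc ∑ i, |c i * u i| ≤ ∑ i, |c i| * U := sum_le_sum fun i _ => by
          rw [abs_mul]; exact mul_le_mul_of_nonneg_left (hu i) (abs_nonneg _)
      _ = (∑ i, |c i|) * U := by rw [sum_mul]
      _ ≤ σ * U := mul_le_mul_of_nonneg_right hc hU
  have h2 : K * ∑ i, c i * e i + ∑ i, c i * u i = 0 := by
    rw [← h, mul_sum, ← sum_add_distrib]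
    exact sum_congr rfl fun i _ => by ring
  have h3 : ∑ i, c i * u i = 0 :=
    Int.eq_zero_of_abs_lt_dvd (m := K) ⟨-∑ i, c i * e i, by linarith only [h2]⟩ (by linarith only [hK, h1])
  have hK0 : K ≠ 0 := by
    have := abs_nonneg (∑ i, c i * u i)
    intro h0
    linarith only [hK, h1, this, h0]
  rw [h3, add_zero] at h2
  exact ⟨(mul_eq_zero.1 h2).resolve_left hK0, h3⟩

theorem abs_coeffs {l : ℕ} (a : Fin l → ℕ) (b : ℕ) :
    ∑ i, |coeffs a b i| = ((∑ i, a i + b : ℕ) : ℤ) := by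
  rw [Fin.sum_univ_castSucc]
  simp only [coeffs, Fin.lastCases_castSucc, Nat.abs_cast, Fin.lastCases_last, abs_neg, Nat.cast_add, Nat.cast_sum]

theorem triv_sum {m : ℕ} {c z : Fin m → ℤ} (h : IsTrivial c z) : ∑ i, c i = 0 := by
  obtain ⟨P, hP⟩ := h
  have h1 : P.parts.biUnion id = (univ : Finset (Fin m)) := by
    rw [← sup_eq_biUnion, P.sup_parts]
  have h2 : ∑ i ∈ P.parts.biUnion id, c i = 0 := by
    rw [sum_biUnion P.supIndep.pairwiseDisjoint]
    exact sum_eq_zero fun Q hQ => (hP Q hQ).2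
  rwa [h1] at h2

theorem triv_eq {l : ℕ} {a : Fin l → ℕ} {b : ℕ} {z : Fin (l + 1) → ℤ}
    (h : IsTrivial (coeffs a b) z) : ∑ i, a i = b := by
  have h1 := triv_sum h
  have h2 := sum_coeffs a b (fun _ => 1)
  simp only [mul_one] at h2
  rw [h1] at h2
  have : ((∑ i, a i : ℕ) : ℤ) = b := by push_cast; linarith
  exact_mod_cast this

theorem triv_of_const {l : ℕ} {a : Fin l → ℕ} {b : ℕ} (hs : ∑ i, a i = b) {z : Fin (l + 1) → ℤ}
    (h : ∀ i j, z i = z j) : IsTrivial (coeffs a b) z := by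
  refine ⟨Finpartition.indiscrete (univ_nonempty.ne_empty), fun Q hQ => ?_⟩
  simp only [Finpartition.indiscrete_parts, mem_singleton] at hQ
  subst hQ
  refine ⟨fun i _ j _ => h i j, ?_⟩
  have := sum_coeffs a b (fun _ => 1)
  simp only [mul_one] at this
  rw [this, ← hs]
  push_cast
  ring

theorem IsFree.mono {m : ℕ} {c : Fin m → ℤ} {S T : Finset ℤ} (h : IsFree c T) (hST : S ⊆ T) :
    IsFree c S := fun z hz h0 => h z (fun i => hST (hz i)) h0

/-- Transport along an injective map that preserves solutions. -/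
theorem yes_image {m : ℕ} (c : Fin m → ℤ) (G : Finset ℤ) (τ : ℤ → ℤ) (hinj : Set.InjOn τ G)
    (hsol : ∀ z : Fin m → ℤ, (∀ i, z i ∈ G) → (∑ i, c i * τ (z i) = 0 ↔ ∑ i, c i * z i = 0))
    (k : ℕ) : YesInstance c (G.image τ, k) ↔ YesInstance c (G, k) := by
  have key : ∀ S ⊆ G, IsFree c (S.image τ) ↔ IsFree c S := by
    intro S hS
    constructor
    · intro h z hz h0
      obtain ⟨P, hP⟩ := h (fun i => τ (z i)) (fun i => mem_image_of_mem _ (hz i))
        ((hsol z fun i => hS (hz i)).2 h0)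
      exact ⟨P, fun Q hQ => ⟨fun i hi j hj =>
        hinj (hS (hz i)) (hS (hz j)) ((hP Q hQ).1 i hi j hj), (hP Q hQ).2⟩⟩
    · intro h z hz h0
      choose y hy hyz using fun i => mem_image.1 (hz i)
      obtain ⟨P, hP⟩ := h y hy ((hsol y fun i => hS (hy i)).1 (by simpa only [hyz] using h0))
      exact ⟨P, fun Q hQ => ⟨fun i hi j hj => by
        rw [← hyz, ← hyz, (hP Q hQ).1 i hi j hj], (hP Q hQ).2⟩⟩
  constructor
  · rintro ⟨S, hS, hk, hf⟩
    obtain ⟨T, hT, rfl⟩ := subset_image_iff.1 hS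
    rw [card_image_of_injOn (hinj.mono hT)] at hk
    exact ⟨T, hT, hk, (key T hT).1 hf⟩
  · rintro ⟨S, hS, hk, hf⟩
    refine ⟨S.image τ, image_subset_image hS, ?_, (key S hS).2 hf⟩
    rwa [card_image_of_injOn (hinj.mono hS)]

/-- Padding by a set that has no mixed solutions with the gadget. -/
theorem yes_union {m : ℕ} (c : Fin m → ℤ) (G P : Finset ℤ) (hd : Disjoint G P)
    (hmix : ∀ z : Fin m → ℤ, (∀ i, z i ∈ G ∪ P) → ∑ i, c i * z i = 0 →
      (∀ i, z i ∈ G) ∨ ∀ i, z i ∈ P)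
    (r : ℕ) (h1 : YesInstance c (P, r)) (h2 : ¬ YesInstance c (P, r + 1)) (k : ℕ) :
    YesInstance c (G ∪ P, k + r) ↔ YesInstance c (G, k) := by
  constructor
  · rintro ⟨S, hS, hk, hf⟩
    refine ⟨S ∩ G, inter_subset_right, ?_, IsFree.mono hf inter_subset_left⟩
    have h3 : (S ∩ P).card ≤ r := by
      by_contra h
      exact h2 ⟨S ∩ P, inter_subset_right, by simpa using h, IsFree.mono hf inter_subset_left⟩
    have h4 : S.card ≤ (S ∩ G).card + (S ∩ P).card := by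
      refine le_trans (card_le_card ?_) (card_union_le _ _)
      intro x hx
      have := hS hx
      simp only [mem_union, mem_inter] at this ⊢
      tauto
    simp only at hk ⊢
    omega
  · rintro ⟨S, hS, hk, hf⟩
    obtain ⟨T, hT, hr, hTf⟩ := h1
    refine ⟨S ∪ T, union_subset_union hS hT, ?_, fun z hz h0 => ?_⟩
    · rw [card_union_of_disjoint (hd.mono hS hT)]
      exact Nat.add_le_add hk hr
    · rcases hmix z (fun i => union_subset_union hS hT (hz i)) h0 with h | h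
      · exact hf z (fun i => (mem_union.1 (hz i)).resolve_right
          fun h' => disjoint_left.1 hd (h i) (hT h')) h0
      · exact hTf z (fun i => (mem_union.1 (hz i)).resolve_left
          fun h' => disjoint_left.1 hd (hS h') (h i)) h0

theorem yes_self {m : ℕ} {c : Fin m → ℤ} {P : Finset ℤ} (h : IsFree c P) :
    YesInstance c (P, P.card) ∧ ¬ YesInstance c (P, P.card + 1) :=
  ⟨⟨P, subset_refl _, le_rfl, h⟩, fun ⟨S, hS, hk, _⟩ => by
    have := card_le_card hS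
    simp only at hk this
    omega⟩

/-- The set of integers of a list of natural numbers. -/
def zs (l : List ℕ) : Finset ℤ := (l.map (fun x : ℕ => (x : ℤ))).toFinset

theorem mem_zs {l : List ℕ} {z : ℤ} : z ∈ zs l ↔ ∃ x ∈ l, (x : ℤ) = z := by
  simp [zs]

theorem zs_append (l m : List ℕ) : zs (l ++ m) = zs l ∪ zs m := by
  simp [zs]

theorem card_zs {l : List ℕ} (h : l.Nodup) : (zs l).card = l.length := by
  rw [zs, List.toFinset_card_of_nodup (h.map Nat.cast_injective), List.length_map]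

theorem zs_map (l : List ℕ) (f : ℕ → ℕ) :
    zs (l.map f) = (zs l).image (fun z => (f z.toNat : ℤ)) := by
  ext z
  simp only [mem_zs, mem_image, List.mem_map]
  constructor
  · rintro ⟨_, ⟨x, hx, rfl⟩, rfl⟩
    exact ⟨x, ⟨x, hx, rfl⟩, by simp⟩
  · rintro ⟨_, ⟨x, hx, rfl⟩, rfl⟩
    exact ⟨_, ⟨x, hx, rfl⟩, by simp⟩

theorem zs_pt {α : Type} [Enc α] {l : α → List ℕ} {B : α → ℕ} (hl : PT l) (h2 : PT B) (h3 : PB B)
    (h : ∀ a, ∀ x ∈ l a, x < B a) : PT (fun a => zs (l a)) := by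
  have h4 : PT (fun a => ((List.range (B a)).filter
      (fun x => decide (x ∈ l a))).map (fun x : ℕ => (x : ℤ))) := by
    fun_prop
  refine PT.of_enc (h4.enc'.of_eq fun a => ?_)
  rw [← sorted_eq _ _ (h a)]
  rfl

theorem mu_mod {h M : ℕ} (hh : 0 < h) (v : ℕ) : ∃ t, mu h M v = M * t + 1 := by
  obtain ⟨h, rfl⟩ : ∃ k, h = k + 1 := ⟨h - 1, by omega⟩
  refine ⟨∑ j ∈ range h, v * (v * M) ^ j, ?_⟩
  rw [mu_eq, sum_range_succ', pow_zero, mul_sum]
  congr 1
  exact sum_congr rfl fun j _ => by ring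

/-- The basic gadget: positive, polynomially bounded numbers with residues `b` or `s`. -/
theorem gadget {l : ℕ} (hl : 2 ≤ l) (a : Fin l → ℕ) (b : ℕ) (ha : ∀ i, 0 < a i) (hb : 0 < b) :
    ∃ (E : List (Clause3 ℕ) → List ℕ) (k M B : List (Clause3 ℕ) → ℕ),
      PT E ∧ PT k ∧ PT M ∧ PT B ∧ PB B ∧ ∀ φ, (∑ i, a i + b) ^ 2 < M φ ∧ 0 < B φ ∧
        (∀ g ∈ E φ, 0 < g ∧ g ≤ B φ ∧ (g % M φ = b ∨ g % M φ = ∑ i, a i)) ∧
        (Sat3 φ ↔ YesInstance (coeffs a b) (zs (E φ), k φ)) := by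
  obtain ⟨l, rfl⟩ : ∃ m, l = m + 1 + 1 := ⟨l - 2, by omega⟩
  have hq : 0 < ∑ i : Fin (l + 1), a i.succ := sum_pos (fun i _ => ha _) univ_nonempty
  have hs : ∑ i, a i = a 0 + ∑ i : Fin (l + 1), a i.succ := Fin.sum_univ_succ _
  set q := ∑ i : Fin (l + 1), a i.succ with hqdef
  have hp := ha 0
  set p := a 0 with hpdef
  refine ⟨elems p q b (2 * (l + 3)), fun φ => (edges φ).length + φ.length,
    fun φ => base p q b (2 * (l + 3)) (3 * φ.length),
    fun φ => bound p q b (2 * (l + 3)) (3 * φ.length), elems_pt _ _ _ _, by fun_prop,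
    by fun_prop, by unfold bound; fun_prop, by unfold bound base; fun_prop, fun φ => ?_⟩
  have hM : (p + q + b) ^ 2 < base p q b (2 * (l + 3)) (3 * φ.length) := by
    unfold base
    have : 0 < (3 * φ.length + 1) ^ (2 * (l + 3)) := by positivity
    nlinarith only [this]
  refine ⟨by rwa [hs], by unfold bound; positivity, fun g hg => ?_,
    inst_correct a ha hq hb hs (by omega) φ⟩
  set M := base p q b (2 * (l + 3)) (3 * φ.length) with hMdef
  rcases List.mem_append.1 hg with hx | hx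
  · obtain ⟨v, hv, rfl⟩ := List.mem_map.1 hx
    obtain ⟨t, ht⟩ := mu_mod (h := 2 * (l + 3)) (M := M) (by omega) v
    refine ⟨by rw [ht]; positivity, num_le (x := Sum.inl v) (List.mem_range.1 hv), Or.inl ?_⟩
    rw [ht, show b * (M * t + 1) = b + M * (b * t) by ring, Nat.add_mul_mod_self_left,
      Nat.mod_eq_of_lt (by nlinarith only [hq, hp, hM])]
  · obtain ⟨e, he, rfl⟩ := List.mem_map.1 hx
    obtain ⟨t, ht⟩ := mu_mod (h := 2 * (l + 3)) (M := M) (by omega) e.1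
    obtain ⟨t', ht'⟩ := mu_mod (h := 2 * (l + 3)) (M := M) (by omega) e.2
    refine ⟨by rw [ht]; positivity, num_le (x := Sum.inr e)
      ⟨(mem_edges.1 he).1, (mem_edges.1 he).2.1⟩, Or.inr ?_⟩
    rw [ht, ht', hs, show p * (M * t + 1) + q * (M * t' + 1) = (p + q) + M * (p * t + q * t') by
      ring, Nat.add_mul_mod_self_left, Nat.mod_eq_of_lt (by nlinarith only [hb, hM])]

/-- Solutions in the gadget are homogeneous for the residues. -/
theorem homog {l : ℕ} (a : Fin l → ℕ) (b M : ℕ) (hM : (∑ i, a i + b) ^ 2 < M)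
    (z : Fin (l + 1) → ℕ) (hz : ∀ i, z i % M ≤ ∑ i, a i + b)
    (h : ∑ i, coeffs a b i * (z i : ℤ) = 0) : ∑ i, coeffs a b i * ((z i % M : ℕ) : ℤ) = 0 := by
  refine (split_sum (coeffs a b) (fun i => ((z i / M : ℕ) : ℤ)) (fun i => ((z i % M : ℕ) : ℤ)) M
    ((∑ i, a i + b : ℕ) : ℤ) ((∑ i, a i + b : ℕ) : ℤ) (by positivity) (fun i => ?_)
    (abs_coeffs a b).le (by rw [← sq]; exact_mod_cast hM) ?_).2
  · rw [Nat.abs_cast]
    exact_mod_cast hz i
  · rw [← h]
    refine sum_congr rfl fun i _ => ?_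
    congr 1
    exact_mod_cast Nat.div_add_mod (z i) M

end Pool.Agent.MP_f29e3e_lc.H57

end

-- part MP_f29e3e_lc.H57.Pad
section

/-!
Padding of the gadget by a dense set without mixed solutions.
-/

set_option autoImplicit false

namespace Pool.Agent.MP_f29e3e_lc.H57

open Finset Pool.Agent.Lib.Cx Function

/-- The gadget rewritten with residues modulo the constant `σ ^ 2 + 1`. -/
def gad (σ M : ℕ) (E : List ℕ) : List ℕ := E.map (fun g => (σ ^ 2 + 1) * g + g % M)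

/-- The padding: multiples of `σ ^ 2 + 1` near the top. -/
def pad (σ R : ℕ) (Y : List ℕ) : List ℕ := Y.map (fun y => (σ ^ 2 + 1) * (2 * σ * R - y))

variable {l : ℕ} {a : Fin l → ℕ} {b M B R : ℕ} {E Y : List ℕ}

theorem gad_yes (hM : (∑ i, a i + b) ^ 2 < M)
    (hE : ∀ g ∈ E, g % M ≤ ∑ i, a i + b) (k : ℕ) :
    YesInstance (coeffs a b) (zs (gad (∑ i, a i + b) M E), k) ↔
      YesInstance (coeffs a b) (zs E, k) := by
  set σ := ∑ i, a i + b with hσ
  rw [gad, zs_map]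
  apply yes_image
  · intro x hx y hy h
    obtain ⟨x, hx', rfl⟩ := mem_zs.1 hx
    obtain ⟨y, hy', rfl⟩ := mem_zs.1 hy
    simp only [Int.toNat_natCast, Nat.cast_inj] at h ⊢
    have h1 := hE x hx'
    have h2 := hE y hy'
    have h3 : σ ≤ σ ^ 2 := Nat.le_self_pow (by norm_num) _
    by_contra hne
    rcases Nat.lt_or_gt_of_ne hne with h4 | h4
    · have h5 := Nat.mul_le_mul_left (σ ^ 2 + 1) (show x + 1 ≤ y from h4)
      rw [mul_add, mul_one] at h5
      omega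
    · have h5 := Nat.mul_le_mul_left (σ ^ 2 + 1) (show y + 1 ≤ x from h4)
      rw [mul_add, mul_one] at h5
      omega
  · intro z hz
    choose y hy hyz using fun i => mem_zs.1 (hz i)
    obtain rfl : z = fun i => (y i : ℤ) := funext fun i => (hyz i).symm
    simp only [Int.toNat_natCast]
    constructor
    · intro h
      refine (split_sum (coeffs a b) (fun i => (y i : ℤ)) (fun i => ((y i % M : ℕ) : ℤ))
        ((σ ^ 2 + 1 : ℕ) : ℤ) σ σ (by positivity) (fun i => ?_) (abs_coeffs a b).le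
        (by push_cast; linarith only []) (by rw [← h]; push_cast; rfl)).1
      rw [Nat.abs_cast]
      exact_mod_cast hE _ (hy i)
    · intro h
      have h2 := homog a b M hM y (fun i => hE _ (hy i)) h
      calc _ = ((σ ^ 2 + 1 : ℕ) : ℤ) * ∑ i, coeffs a b i * (y i : ℤ) +
            ∑ i, coeffs a b i * ((y i % M : ℕ) : ℤ) := by
            rw [mul_sum, ← sum_add_distrib]
            exact sum_congr rfl fun i _ => by push_cast; ring
        _ = 0 := by rw [h, h2]; simp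

theorem mem_gad {σ : ℕ} (hE : ∀ g ∈ E, g ≤ B ∧ 0 < g % M ∧ g % M ≤ σ) (hR : B < R) {z : ℤ}
    (hz : z ∈ zs (gad σ M E)) : 0 < z ∧ z ≤ ((σ ^ 2 + 1) * R : ℕ) ∧
      ∃ e w : ℤ, z = ((σ ^ 2 + 1 : ℕ) : ℤ) * e + w ∧ 0 < w ∧ w ≤ σ := by
  obtain ⟨x, hx, rfl⟩ := mem_zs.1 hz
  obtain ⟨g, hg, rfl⟩ := List.mem_map.1 hx
  obtain ⟨h1, h2, h3⟩ := hE g hg
  have h4 : σ ≤ σ ^ 2 := Nat.le_self_pow (by norm_num) _
  refine ⟨by positivity, ?_, g, (g % M : ℕ), by push_cast; rfl, by exact_mod_cast h2,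
    by exact_mod_cast h3⟩
  have : (σ ^ 2 + 1) * (g + 1) ≤ (σ ^ 2 + 1) * R := Nat.mul_le_mul_left _ (by omega)
  exact_mod_cast (by linarith only [h3, h4, this] : (σ ^ 2 + 1) * g + g % M ≤ (σ ^ 2 + 1) * R)

theorem mem_pad {σ : ℕ} (hσ : 0 < σ) (hY : ∀ y ∈ Y, y < R) {z : ℤ} (hz : z ∈ zs (pad σ R Y)) :
    ∃ y ∈ Y, z = ((σ ^ 2 + 1 : ℕ) : ℤ) * (2 * σ * R - y) := by
  obtain ⟨x, hx, rfl⟩ := mem_zs.1 hz
  obtain ⟨y, hy, rfl⟩ := List.mem_map.1 hx
  refine ⟨y, hy, ?_⟩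
  have h1 := hY y hy
  have : y ≤ 2 * σ * R := by nlinarith
  push_cast [this]
  rfl

theorem card_pad {σ : ℕ} (hσ : 0 < σ) (hY : ∀ y ∈ Y, y < R) (hn : Y.Nodup) :
    (zs (pad σ R Y)).card = Y.length := by
  rw [card_zs, pad, List.length_map]
  refine hn.map_on fun x hx y hy h => ?_
  have h1 := Nat.eq_of_mul_eq_mul_left (by positivity) h
  have h2 := hY x hx
  have h3 := hY y hy
  have : R ≤ 2 * σ * R := Nat.le_mul_of_pos_left _ (by omega)
  omega

theorem pad_bound {σ : ℕ} (hσ : 0 < σ) (hY : ∀ y ∈ Y, y < R) {z : ℤ} (hz : z ∈ zs (pad σ R Y)) :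
    ((σ ^ 2 + 1) * R : ℕ) < z ∧ z ≤ ((σ ^ 2 + 1) * (2 * σ * R) : ℕ) := by
  obtain ⟨y, hy, rfl⟩ := mem_pad hσ hY hz
  have h1 : (y : ℤ) < R := by exact_mod_cast hY y hy
  have h2 : (1 : ℤ) ≤ σ := by exact_mod_cast hσ
  have h3 : (0 : ℤ) ≤ y := by positivity
  push_cast
  constructor
  · apply mul_lt_mul_of_pos_left _ (by positivity)
    nlinarith
  · apply mul_le_mul_of_nonneg_left _ (by positivity)
    linarith only []

theorem gad_disj {σ : ℕ} (hσ : 0 < σ) (hE : ∀ g ∈ E, g ≤ B ∧ 0 < g % M ∧ g % M ≤ σ) (hR : B < R)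
    (hY : ∀ y ∈ Y, y < R) : Disjoint (zs (gad σ M E)) (zs (pad σ R Y)) := by
  rw [disjoint_left]
  intro z h1 h2
  have := (mem_gad hE hR h1).2.1
  have := (pad_bound hσ hY h2).1
  omega

/-- A solution with non-negative entries has zero left entries if the last entry is zero. -/
theorem zero_of_last (ha : ∀ i, 0 < a i) (w : Fin (l + 1) → ℤ) (hw : ∀ i, 0 ≤ w i)
    (h : ∑ i, coeffs a b i * w i = 0) (h0 : w (Fin.last l) = 0) : ∀ i, w i = 0 := by
  rw [sum_coeffs, h0, mul_zero, sub_zero] at h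
  intro i
  induction i using Fin.lastCases with
  | last => exact h0
  | cast i =>
    have := (sum_eq_zero_iff_of_nonneg (fun j _ =>
      mul_nonneg (Nat.cast_nonneg (a j)) (hw j.castSucc))).1 h i (mem_univ i)
    exact (mul_eq_zero.1 this).resolve_left (by exact_mod_cast (ha i).ne')

theorem no_mix (ha : ∀ i, 0 < a i) (hb : 0 < b)
    (hE : ∀ g ∈ E, g ≤ B ∧ 0 < g % M ∧ g % M ≤ ∑ i, a i + b) (hR : B < R)
    (hY : ∀ y ∈ Y, y < R) (z : Fin (l + 1) → ℤ)
    (hz : ∀ i, z i ∈ zs (gad (∑ i, a i + b) M E) ∪ zs (pad (∑ i, a i + b) R Y))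
    (h0 : ∑ i, coeffs a b i * z i = 0) :
    (∀ i, z i ∈ zs (gad (∑ i, a i + b) M E)) ∨
      ((∀ i, z i ∈ zs (pad (∑ i, a i + b) R Y)) ∧ ∑ i, a i = b) := by
  classical
  set σ := ∑ i, a i + b with hσ
  have hσ0 : 0 < σ := by omega
  have hR0 : (0 : ℤ) < R := by exact_mod_cast (by omega : 0 < R)
  have hσ1 : (1 : ℤ) ≤ σ := by exact_mod_cast hσ0
  have hdec : ∀ i, ∃ e u f w : ℤ, z i = ((σ ^ 2 + 1) * (2 * σ * R) : ℕ) * e + u ∧
      |u| ≤ ((σ ^ 2 + 1) * R : ℕ) ∧ z i = ((σ ^ 2 + 1 : ℕ) : ℤ) * f + w ∧ 0 ≤ w ∧ w ≤ σ ∧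
      ((z i ∈ zs (gad σ M E) ∧ e = 0 ∧ 0 < w) ∨ (z i ∈ zs (pad σ R Y) ∧ e = 1 ∧ w = 0)) := by
    intro i
    rcases mem_union.1 (hz i) with h | h
    · obtain ⟨h1, h2, f, w, h3, h4, h5⟩ := mem_gad hE hR h
      exact ⟨0, z i, f, w, by simp, by rwa [abs_of_pos h1], h3, h4.le, h5, Or.inl ⟨h, rfl, h4⟩⟩
    · obtain ⟨y, hy, h1⟩ := mem_pad hσ0 hY h
      have h2 : (y : ℤ) < R := by exact_mod_cast hY y hy
      refine ⟨1, -(((σ ^ 2 + 1 : ℕ) : ℤ) * y), 2 * σ * R - y, 0, by rw [h1]; push_cast; ring, ?_,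
        by rw [h1]; ring, le_rfl, by positivity, Or.inr ⟨h, rfl, rfl⟩⟩
      rw [abs_neg, abs_of_nonneg (by positivity)]
      push_cast
      exact mul_le_mul_of_nonneg_left h2.le (by positivity)
  choose e u f w h1 h2 h3 h4 h5 h6 using hdec
  have k1 := (split_sum (coeffs a b) e u (((σ ^ 2 + 1) * (2 * σ * R) : ℕ) : ℤ)
    (((σ ^ 2 + 1) * R : ℕ) : ℤ) σ (by positivity) h2 (abs_coeffs a b).le (by
      push_cast
      have : (0 : ℤ) < σ * ((σ ^ 2 + 1) * R) := by positivity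
      linarith only [this]) (by rw [← h0]; exact sum_congr rfl fun i _ => by rw [← h1 i])).1
  have k2 := (split_sum (coeffs a b) f w ((σ ^ 2 + 1 : ℕ) : ℤ) σ σ (by positivity)
    (fun i => by rw [abs_of_nonneg (h4 i)]; exact h5 i) (abs_coeffs a b).le
    (by push_cast; linarith only []) (by rw [← h0]; exact sum_congr rfl fun i _ => by rw [← h3 i])).2
  rcases h6 (Fin.last l) with ⟨-, k3, -⟩ | ⟨-, -, k3⟩
  · have k4 := zero_of_last ha e (fun i => by rcases h6 i with h | h <;> omega) k1 k3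
    exact Or.inl fun i => by
      rcases h6 i with h | h
      · exact h.1
      · have := k4 i
        omega
  · have k4 := zero_of_last ha w h4 k2 k3
    have k5 : ∀ i, z i ∈ zs (pad σ R Y) ∧ e i = 1 := fun i => by
      rcases h6 i with h | h
      · have := k4 i
        omega
      · exact ⟨h.1, h.2.1⟩
    refine Or.inr ⟨fun i => (k5 i).1, ?_⟩
    rw [sum_coeffs] at k1
    simp only [(k5 _).2, mul_one] at k1
    have : ((∑ i, a i : ℕ) : ℤ) = b := by push_cast; linarith only [k1]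
    exact_mod_cast this

/-- The padded instance. -/
theorem padded (ha : ∀ i, 0 < a i) (hb : 0 < b) (hM : (∑ i, a i + b) ^ 2 < M)
    (hE : ∀ g ∈ E, g ≤ B ∧ 0 < g % M ∧ g % M ≤ ∑ i, a i + b) (hR : B < R)
    (hY : ∀ y ∈ Y, y < R) (r : ℕ)
    (h1 : YesInstance (coeffs a b) (zs (pad (∑ i, a i + b) R Y), r))
    (h2 : ¬ YesInstance (coeffs a b) (zs (pad (∑ i, a i + b) R Y), r + 1)) (k : ℕ) :
    YesInstance (coeffs a b)
      (zs (gad (∑ i, a i + b) M E ++ pad (∑ i, a i + b) R Y), k + r) ↔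
      YesInstance (coeffs a b) (zs E, k) := by
  rw [zs_append, yes_union _ _ _ (gad_disj (by omega) hE hR hY)
    (fun z hz h0 => (no_mix ha hb hE hR hY z hz h0).imp id And.left) r h1 h2,
    gad_yes hM (fun g hg => (hE g hg).2.2)]

theorem padded_bound {σ : ℕ} (hσ : 0 < σ) (hE : ∀ g ∈ E, g ≤ B ∧ 0 < g % M ∧ g % M ≤ σ)
    (hR : B < R) (hY : ∀ y ∈ Y, y < R) {z : ℤ} (hz : z ∈ zs (gad σ M E ++ pad σ R Y)) :
    0 < z ∧ z ≤ ((σ ^ 2 + 1) * (2 * σ * R) : ℕ) := by
  rw [zs_append] at hz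
  rcases mem_union.1 hz with h | h
  · obtain ⟨h1, h2, -⟩ := mem_gad hE hR h
    refine ⟨h1, h2.trans ?_⟩
    exact_mod_cast Nat.mul_le_mul_left _ (Nat.le_mul_of_pos_left _ (by omega))
  · obtain ⟨h1, h2⟩ := pad_bound hσ hY h
    exact ⟨lt_of_le_of_lt (by positivity) h1, h2⟩

theorem padded_card {σ : ℕ} (hσ : 0 < σ) (hY : ∀ y ∈ Y, y < R) (hn : Y.Nodup) :
    Y.length ≤ (zs (gad σ M E ++ pad σ R Y)).card := by
  rw [zs_append, ← card_pad hσ hY hn]
  exact card_le_card subset_union_right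

/-- For a non-invariant equation the padding is free. -/
theorem pad_free_ne (ha : ∀ i, 0 < a i) (hb : 0 < b) (hs : ∑ i, a i ≠ b) (hR : 0 < R)
    (hY : ∀ y ∈ Y, y < R) : IsFree (coeffs a b) (zs (pad (∑ i, a i + b) R Y)) := by
  intro z hz h0
  rcases no_mix (E := []) (M := 1) (B := 0) ha hb (by simp only [List.not_mem_nil, nonpos_iff_eq_zero, IsEmpty.forall_iff, implies_true]) hR hY z
    (fun i => mem_union_right _ (hz i)) h0 with h | h
  · simpa only [zs, gad, List.map_nil, List.toFinset_nil, notMem_empty] using h (Fin.last l)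
  · exact absurd h.2 hs

/-- For an invariant equation the padding is free if the pattern is. -/
theorem pad_free_eq (hb : 0 < b) (hs : ∑ i, a i = b) (hY : ∀ y ∈ Y, y < R)
    (hf : ∀ y : Fin (l + 1) → ℕ, (∀ i, y i ∈ Y) → ∑ i, coeffs a b i * (y i : ℤ) = 0 →
      ∀ i j, y i = y j) : IsFree (coeffs a b) (zs (pad (∑ i, a i + b) R Y)) := by
  intro z hz h0
  set σ := ∑ i, a i + b with hσ
  choose y hy hyz using fun i => mem_pad (by omega) hY (hz i)
  have h1 : ∑ i, coeffs a b i = 0 := by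
    have := sum_coeffs a b (fun _ => 1)
    simp only [mul_one] at this
    rw [this, ← hs]
    push_cast
    ring
  have h2 : ((σ ^ 2 + 1 : ℕ) : ℤ) * ((2 * σ * R) * ∑ i, coeffs a b i -
      ∑ i, coeffs a b i * (y i : ℤ)) = 0 := by
    rw [← h0, mul_sum, ← sum_sub_distrib, mul_sum]
    exact sum_congr rfl fun i _ => by rw [hyz i]; ring
  rw [h1, mul_zero, zero_sub, mul_eq_zero, neg_eq_zero] at h2
  have h3 := hf y hy (h2.resolve_left (by positivity))
  exact triv_of_const hs fun i j => by rw [hyz, hyz, h3 i j]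

theorem padded_pt {α : Type} [Enc α] {σ : ℕ} (hσ : 0 < σ) {M B R : α → ℕ} {E Y : α → List ℕ}
    (h1 : PT M) (h2 : PT R) (h3 : PB R) (h4 : PT E) (h5 : PT Y)
    (hE : ∀ x, ∀ g ∈ E x, g ≤ B x ∧ 0 < g % M x ∧ g % M x ≤ σ) (hR : ∀ x, B x < R x)
    (hY : ∀ x, ∀ y ∈ Y x, y < R x) :
    PT (fun x => zs (gad σ (M x) (E x) ++ pad σ (R x) (Y x))) := by
  refine zs_pt (B := fun x => (σ ^ 2 + 1) * (2 * σ * R x) + 1) (by unfold gad pad; fun_prop)
    (by fun_prop) (by fun_prop) fun x z hz => ?_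
  have := (padded_bound hσ (hE x) (hR x) (hY x) (mem_zs.2 ⟨z, hz, rfl⟩)).2
  exact Nat.lt_succ_of_le (by exact_mod_cast this)

end Pool.Agent.MP_f29e3e_lc.H57

end
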