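import Mathlib
import Pool.Agent.MP_f29e3e_lc.Mg.H57_Pad
import Pool.Agent.MP_f29e3e_lc.H57.Stab

/-!
Hardness on almost complete intervals for `a_1 x_1 + ... + a_l x_l = y`.
-/

set_option autoImplicit false

namespace Pool.Agent.MP_f29e3e_lc.H57

open Finset Pool.Agent.Lib.Cx Function

variable {l : ℕ} {a : Fin l → ℕ} {M W T : ℕ} {E : List ℕ}

/-- The gadget moved to the neighbourhoods of `T` and `s T`. -/
def top (T M : ℕ) (E : List ℕ) : List ℕ := E.map (fun g => T * (g % M) + g)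

/-- The filling. -/
def fill (s T W K : ℕ) : List ℕ :=
  (List.range (s * T + 1)).filter (fun x => decide ((K ≤ x ∧ x + K ≤ T) ∨ T + W < x))

theorem top_yes (hM : (∑ i, a i + 1) ^ 2 < M)
    (hE : ∀ g ∈ E, g ≤ W ∧ g % M ≤ ∑ i, a i + 1) (hT : (∑ i, a i + 1) * W < T) (k : ℕ) :
    YesInstance (coeffs a 1) (zs (top T M E), k) ↔ YesInstance (coeffs a 1) (zs E, k) := by
  rw [top, zs_map]
  apply yes_image
  · intro x hx y hy h
    obtain ⟨x, hx', rfl⟩ := mem_zs.1 hx
    obtain ⟨y, hy', rfl⟩ := mem_zs.1 hy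
    simp only [Int.toNat_natCast, Nat.cast_inj] at h ⊢
    have h1 := (hE x hx').1
    have h2 := (hE y hy').1
    have h3 : W < T := by linarith only [Nat.zero_le ((∑ i, a i) * W), hT]
    have h4 := congrArg (· % T) h
    simp only [Nat.mul_add_mod] at h4
    rwa [Nat.mod_eq_of_lt (by omega), Nat.mod_eq_of_lt (by omega)] at h4
  · intro z hz
    choose y hy hyz using fun i => mem_zs.1 (hz i)
    obtain rfl : z = fun i => (y i : ℤ) := funext fun i => (hyz i).symm
    simp only [Int.toNat_natCast]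
    constructor
    · intro h
      refine (split_sum (coeffs a 1) (fun i => ((y i % M : ℕ) : ℤ)) (fun i => (y i : ℤ))
        T W ((∑ i, a i + 1 : ℕ) : ℤ) (by positivity) (fun i => ?_) (abs_coeffs a 1).le
        (by exact_mod_cast hT) (by rw [← h]; push_cast; rfl)).2
      rw [Nat.abs_cast]
      exact_mod_cast (hE _ (hy i)).1
    · intro h
      have h2 := homog a 1 M hM y (fun i => (hE _ (hy i)).2) h
      calc _ = (T : ℤ) * ∑ i, coeffs a 1 i * ((y i % M : ℕ) : ℤ) +
            ∑ i, coeffs a 1 i * (y i : ℤ) := by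
            rw [mul_sum, ← sum_add_distrib]
            exact sum_congr rfl fun i _ => by push_cast; ring
        _ = 0 := by rw [h, h2]; simp

theorem mem_top {s : ℕ} (hE : ∀ g ∈ E, 0 < g ∧ g ≤ W ∧ (g % M = 1 ∨ g % M = s)) {z : ℤ}
    (hz : z ∈ zs (top T M E)) : (T < z ∧ z ≤ T + W) ∨ (s * T < z ∧ z ≤ s * T + W) := by
  obtain ⟨x, hx, rfl⟩ := mem_zs.1 hz
  obtain ⟨g, hg, rfl⟩ := List.mem_map.1 hx
  obtain ⟨h1, h2, h3 | h3⟩ := hE g hg
  · rw [h3]
    omega
  · rw [h3, mul_comm T]
    right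
    push_cast
    omega

theorem fill_eq {s K : ℕ} (hs : 1 ≤ s) :
    zs (fill s T W K) = Icc (K : ℤ) (T - K) ∪ Ioc ((T : ℤ) + W) (s * T) := by
  ext z
  have h : T ≤ s * T := Nat.le_mul_of_pos_left _ hs
  simp only [mem_zs, fill, List.mem_filter, List.mem_range, decide_eq_true_eq, mem_union, mem_Icc,
    mem_Ioc]
  rw [← Nat.cast_mul]
  generalize s * T = N at h
  constructor
  · rintro ⟨x, h1, rfl⟩
    omega
  · intro h1
    exact ⟨z.toNat, by omega, by omega⟩

theorem no_sol (hs : ∑ i, a i ≠ 1) {S : Finset ℤ} (hf : IsFree (coeffs a 1) S) (i0 : Fin l) :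
    ∀ x ∈ S, ∀ y ∈ S, (a i0 : ℤ) * x + ((∑ i, a i : ℕ) - a i0 : ℤ) * y ∉ S := by
  classical
  intro x hx y hy hz
  refine hs (triv_eq (hf (Fin.lastCases ((a i0 : ℤ) * x + ((∑ i, a i : ℕ) - a i0 : ℤ) * y)
    (fun i => if i = i0 then x else y)) (fun i => ?_) ?_))
  · induction i using Fin.lastCases with
    | last => simpa only [Nat.cast_sum, Fin.lastCases_last] using hz
    | cast i =>
      simp only [Fin.lastCases_castSucc]
      split_ifs
      · exact hx
      · exact hy
  · rw [sum_coeffs]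
    simp only [Fin.lastCases_castSucc, Fin.lastCases_last]
    have : ∀ i, (a i : ℤ) * (if i = i0 then x else y) =
        (a i : ℤ) * y + if i = i0 then (a i0 : ℤ) * (x - y) else 0 := by
      intro i
      split_ifs with h
      · rw [h]; ring
      · ring
    simp only [this, sum_add_distrib, ← sum_mul, sum_ite_eq', mem_univ, if_true]
    push_cast
    ring

theorem top_mix (hl : 2 ≤ l) (ha : ∀ i, 0 < a i)
    (hE : ∀ g ∈ E, 0 < g ∧ g ≤ W ∧ (g % M = 1 ∨ g % M = ∑ i, a i)) (z : Fin (l + 1) → ℤ)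
    (hz : ∀ i, z i ∈ zs (top T M E) ∪ Ioc ((T : ℤ) + W) ((∑ i, a i : ℕ) * T))
    (h0 : ∑ i, coeffs a 1 i * z i = 0) : ∀ i, z i ∈ zs (top T M E) := by
  set s := ∑ i, a i with hs
  have hs0 : 0 < s := sum_pos (fun i _ => ha i) ⟨⟨0, by omega⟩, mem_univ _⟩
  have hT : (T : ℤ) ≤ s * T := by exact_mod_cast Nat.le_mul_of_pos_left _ hs0
  have h1 : ∀ i, (T : ℤ) + 1 ≤ z i ∧ z i ≤ s * T + W := by
    intro i
    rcases mem_union.1 (hz i) with h | h
    · have := mem_top hE h
      omega
    · have := mem_Ioc.1 h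
      omega
  have h2 : ∑ i, (a i : ℤ) * (z i.castSucc - (T + 1)) = z (Fin.last l) - s * T - s := by
    rw [sum_coeffs] at h0
    simp only [mul_sub, sum_sub_distrib, ← sum_mul]
    rw [hs]
    push_cast at h0 ⊢
    linarith only [h0]
  have h3 : ∀ i ∈ (univ : Finset (Fin l)), 0 ≤ (a i : ℤ) * (z i.castSucc - (T + 1)) :=
    fun i _ => mul_nonneg (by positivity) (by linarith only [(h1 i.castSucc).1])
  intro i
  refine (mem_union.1 (hz i)).resolve_right fun h => ?_
  have h4 := mem_Ioc.1 h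
  induction i using Fin.lastCases with
  | last =>
    have := sum_nonneg h3
    omega
  | cast i =>
    have k1 := single_le_sum h3 (mem_univ i)
    have k2 : (1 : ℤ) ≤ a i := by exact_mod_cast ha i
    have k3 := (h1 (Fin.last l)).2
    have k4 : (1 : ℤ) ≤ s := by exact_mod_cast hs0
    nlinarith only [hs0, h2, h4, k1, k2, k3]

theorem exists_small (hl : 2 ≤ l) : ∃ i0, 2 * a i0 ≤ ∑ i, a i := by
  obtain ⟨l, rfl⟩ : ∃ m, l = m + 1 + 1 := ⟨l - 2, by omega⟩
  rw [Fin.sum_univ_succ, Fin.sum_univ_succ]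
  rcases le_total (a 0) (a (Fin.succ 0)) with h | h
  · exact ⟨0, by omega⟩
  · exact ⟨Fin.succ 0, by omega⟩

theorem cosp_yes (hl : 2 ≤ l) (ha : ∀ i, 0 < a i) (hM : (∑ i, a i + 1) ^ 2 < M) (hW : 0 < W)
    (hE : ∀ g ∈ E, 0 < g ∧ g ≤ W ∧ (g % M = 1 ∨ g % M = ∑ i, a i))
    (hT : 80 * (∑ i, a i) * W < T) (k : ℕ) :
    YesInstance (coeffs a 1) (zs (top T M E ++ fill (∑ i, a i) T W (40 * (∑ i, a i) * W)),
      k + ((∑ i, a i) * T - T - W)) ↔ YesInstance (coeffs a 1) (zs E, k) := by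
  obtain ⟨i0, hi0⟩ := exists_small (a := a) hl
  have ha0 := ha i0
  set s := ∑ i, a i with hs
  have hs2 : 2 ≤ s := by omega
  have hsW : W ≤ s * W := Nat.le_mul_of_pos_left _ (by omega)
  have hsT : 2 * T ≤ s * T := Nat.mul_le_mul_right _ hs2
  have hT' : 80 * (s * W) < T := by rwa [← mul_assoc]
  have hd : Disjoint (zs (top T M E)) (Ioc ((T : ℤ) + W) (s * T)) := by
    rw [disjoint_left]
    intro z h1 h2
    have := mem_top hE h1
    have := mem_Ioc.1 h2
    omega
  have hc : (Ioc ((T : ℤ) + W) (s * T)).card = s * T - T - W := by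
    rw [Int.card_Ioc, ← Nat.cast_mul]
    omega
  have hf : IsFree (coeffs a 1) (Ioc ((T : ℤ) + W) (s * T)) := fun z hz h0 =>
    absurd (hz 0) (disjoint_left.1 hd
      (top_mix hl ha hE z (fun i => mem_union_right _ (hz i)) h0 0))
  have k1 := yes_self hf
  rw [hc] at k1
  rw [← top_yes (E := E) (W := W) (T := T) hM (fun g hg => by have := hE g hg; omega) (by nlinarith only [ha0, hT, hi0, hs]),
    ← yes_union _ _ _ hd (fun z hz h0 => Or.inl (top_mix hl ha hE z hz h0)) _ k1.1 k1.2,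
    zs_append, fill_eq (by omega)]
  constructor
  · rintro ⟨S, h1, h2, h3⟩
    refine ⟨S, fun x hx => ?_, h2, h3⟩
    have e : (a i0 : ℤ) + ((s : ℤ) - a i0) = s := by ring
    have h4 := stab S (a i0) (s - a i0) T W (by exact_mod_cast ha0) (by omega)
      (by exact_mod_cast hW) (by positivity) (no_sol (by omega) h3 i0) (fun y hy => by
        have h5 := h1 hy
        simp only [mem_union, mem_Icc, mem_Ioc] at h5
        rw [e, mul_assoc, ← Nat.cast_mul s W]
        rw [mul_assoc] at h5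
        push_cast [-Nat.cast_mul] at h5
        rw [← Nat.cast_mul s T] at h5 ⊢
        rcases h5 with h5 | h5
        · have := mem_top hE h5
          rw [← Nat.cast_mul s T] at this
          omega
        · omega) (by
        rw [e, sub_mul, ← Nat.cast_mul]
        simp only at h2
        omega) x hx
    have h5 := h1 hx
    simp only [mem_union, mem_Icc] at h5 ⊢
    rw [e] at h4
    push_cast at h5
    rcases h5 with h5 | h5 | h5
    · exact Or.inl h5
    · omega
    · exact Or.inr h5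
  · rintro ⟨S, h1, h2, h3⟩
    exact ⟨S, h1.trans (union_subset_union (subset_refl _) subset_union_right), h2, h3⟩

theorem hard_cosp (hl : 2 ≤ l) (ha : ∀ i, 0 < a i) (t : ℕ) :
    HardOn (fun I : Finset ℤ × ℕ => ∃ N : ℕ, I.1 ⊆ Icc 1 (N : ℤ) ∧ (N - I.1.card) ^ t ≤ N)
      (YesInstance (coeffs a 1)) := by
  obtain ⟨E, k, M, B, h1, h2, h3, h4, h5, h⟩ := gadget hl a 1 ha one_pos
  obtain ⟨i0, hi0⟩ := exists_small (a := a) hl
  have ha0 := ha i0
  set s := ∑ i, a i with hs
  let T : List (Clause3 ℕ) → ℕ := fun φ => (82 * s * B φ) ^ t + 80 * s * B φ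
  have hT : ∀ φ, 80 * s * B φ < T φ := fun φ => by
    have := (h φ).2.1
    have : 0 < (82 * s * B φ) ^ t := by have : 0 < s := by omega
                                        positivity
    simp only [T]
    omega
  have t1 : PT T := by fun_prop
  have t2 : PB T := by fun_prop
  have hsub : ∀ φ, zs (top (T φ) (M φ) (E φ) ++ fill s (T φ) (B φ) (40 * s * B φ)) ⊆
      Icc 1 ((s * T φ + B φ : ℕ) : ℤ) := by
    intro φ z hz
    have k0 := (h φ).2.1
    have k1 : T φ ≤ s * T φ := Nat.le_mul_of_pos_left _ (by omega)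
    have k2 : B φ ≤ s * B φ := Nat.le_mul_of_pos_left _ (by omega)
    rw [zs_append, fill_eq (by omega), mul_assoc, ← Nat.cast_mul] at hz
    simp only [mem_union, mem_Icc, mem_Ioc] at hz ⊢
    rcases hz with hz | hz
    · have := mem_top (h φ).2.2.1 hz
      rw [← Nat.cast_mul] at this
      omega
    · omega
  have p1 : PT (fun φ => top (T φ) (M φ) (E φ) ++ fill s (T φ) (B φ) (40 * s * B φ)) := by
    unfold top fill
    fun_prop
  refine hardOn_sat3.of_red (fun φ => (zs (top (T φ) (M φ) (E φ) ++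
    fill s (T φ) (B φ) (40 * s * B φ)), k φ + (s * T φ - T φ - B φ)))
    ((zs_pt (B := fun φ => s * T φ + B φ + 1) p1 (by fun_prop) (by fun_prop) fun φ x hx => by
      have := (mem_Icc.1 (hsub φ (mem_zs.2 ⟨x, hx, rfl⟩))).2
      omega).prodMk (by fun_prop)) fun φ _ => ⟨⟨_, hsub φ, ?_⟩, ?_⟩
  · have k0 := (h φ).2.1
    have k1 : 2 * T φ ≤ s * T φ := Nat.mul_le_mul_right _ (by omega)
    have k2 : B φ ≤ s * B φ := Nat.le_mul_of_pos_left _ (by omega)
    have k3 := hT φ
    have k4 : (zs (fill s (T φ) (B φ) (40 * s * B φ))).card ≤ (zs (top (T φ) (M φ) (E φ) ++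
        fill s (T φ) (B φ) (40 * s * B φ))).card := by
      rw [zs_append]
      exact card_le_card subset_union_right
    rw [fill_eq (by omega), card_union_of_disjoint (by
      rw [disjoint_left]
      intro z j1 j2
      have := mem_Icc.1 j1
      have := mem_Ioc.1 j2
      omega), Int.card_Icc, Int.card_Ioc, ← Nat.cast_mul] at k4
    rw [mul_assoc] at k3 k4
    calc _ ≤ (82 * s * B φ) ^ t := Nat.pow_le_pow_left (by
          rw [mul_assoc 82, mul_assoc 40]
          dsimp only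
          omega) _
      _ ≤ T φ := Nat.le_add_right _ _
      _ ≤ _ := by omega
  · rw [cosp_yes hl ha (h φ).1 (h φ).2.1 (h φ).2.2.1 (hT φ)]
    exact (h φ).2.2.2

end Pool.Agent.MP_f29e3e_lc.H57
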