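import Mathlib
import Pool.Agent.MP_f29e3e_lc.Mg.H57_Pad

-- part MP_f29e3e_lc.H57.Beh
section

/-!
A polynomial-time Behrend set for the equation `a_1 x_1 + ... + a_l x_l = (a_1 + ... + a_l) y`.
-/

set_option autoImplicit false

namespace Pool.Agent.MP_f29e3e_lc.H57

open Finset Pool.Agent.Lib.Cx Function

/-- digit `j` in base `D` -/
def dig (D j y : ℕ) : ℕ := y / D ^ j % D

/-- sum of the squares of the first `n` digits -/
def nrm (D n y : ℕ) : ℕ := ((List.range n).map (fun j => dig D (min j n) y ^ 2)).sum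

/-- numbers below `R` with small digits and given norm -/
def cls (D d n R ρ : ℕ) : List ℕ :=
  (List.range R).filter (fun y => decide ((∀ j < n, dig D (min j n) y < d) ∧ nrm D n y = ρ))

/-- the largest class, up to the average -/
def beh (D d n R K : ℕ) : List ℕ :=
  cls D d n R (((List.range K).filter
    (fun ρ => decide (d ^ n ≤ (cls D d n R ρ).length * K))).headD 0)

theorem dig_zero (D x y : ℕ) (hx : x < D) : dig D 0 (x + D * y) = x := by
  simp [dig, Nat.mod_eq_of_lt hx]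

theorem dig_succ (D j y : ℕ) : dig D (j + 1) y = dig D j (y / D) := by
  rw [dig, dig, Nat.div_div_eq_div_mul, pow_succ']

theorem dig_sum (D n y : ℕ) (hy : y < D ^ n) : y = ∑ j ∈ range n, dig D j y * D ^ j := by
  induction n generalizing y with
  | zero => simpa using hy
  | succ n ih =>
    have hD : 0 < D := by
      rcases Nat.eq_zero_or_pos D with h | h
      · simp [h] at hy
      · exact h
    rw [sum_range_succ']
    have h1 := ih (y / D) ((Nat.div_lt_iff_lt_mul hD).2 (by rwa [pow_succ] at hy))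
    have h2 : ∑ j ∈ range n, dig D (j + 1) y * D ^ (j + 1) =
        D * ∑ j ∈ range n, dig D j (y / D) * D ^ j := by
      rw [mul_sum]
      exact sum_congr rfl fun j _ => by rw [dig_succ]; ring
    rw [h2, ← h1]
    simp [dig, Nat.div_add_mod]

theorem card_good (D d n : ℕ) (hd : d ≤ D) :
    d ^ n ≤ ((range (D ^ n)).filter (fun y => ∀ j < n, dig D j y < d)).card := by
  induction n with
  | zero => simp
  | succ n ih =>
    calc d ^ (n + 1) ≤ (range d ×ˢ (range (D ^ n)).filter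
          (fun y => ∀ j < n, dig D j y < d)).card := by
          rw [card_product, card_range, pow_succ']
          exact Nat.mul_le_mul_left _ ih
      _ ≤ _ := by
        refine card_le_card_of_injOn (fun p => p.1 + D * p.2) ?_ ?_
        · rintro ⟨x, y⟩ hp
          simp only [coe_product, coe_range, coe_filter, mem_range, Set.mem_prod, Set.mem_Iio,
            Set.mem_ofPred_eq] at hp ⊢
          obtain ⟨h1, h2, h3⟩ := hp
          have h4 : x < D := by omega
          refine ⟨by rw [pow_succ']; nlinarith only [hd, h1, h2], fun j hj => ?_⟩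
          rcases j with _ | j
          · rwa [dig_zero _ _ _ h4]
          · rw [dig_succ, Nat.add_mul_div_left _ _ (by omega), Nat.div_eq_of_lt h4, zero_add]
            exact h3 j (by omega)
        · rintro ⟨x, y⟩ hp ⟨x', y'⟩ hp' h
          simp only [coe_product, coe_range, coe_filter, mem_range, Set.mem_prod, Set.mem_Iio,
            Set.mem_ofPred_eq] at hp hp' h
          have h1 := dig_zero D x y (by omega)
          rw [h, dig_zero D x' y' (by omega)] at h1
          subst h1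
          have h2 : D * y = D * y' := by omega
          rw [Nat.eq_of_mul_eq_mul_left (by omega) h2]

theorem nrm_eq (D n y : ℕ) : nrm D n y = ∑ j ∈ range n, dig D j y ^ 2 := by
  have : nrm D n y = ∑ j ∈ range n, dig D (min j n) y ^ 2 := rfl
  rw [this]
  exact sum_congr rfl fun j hj => by rw [min_eq_left (mem_range.1 hj).le]

theorem mem_cls {D d n R ρ y : ℕ} :
    y ∈ cls D d n R ρ ↔ y < R ∧ (∀ j < n, dig D j y < d) ∧ ∑ j ∈ range n, dig D j y ^ 2 = ρ := by
  simp only [cls, List.mem_filter, List.mem_range, decide_eq_true_eq, nrm_eq]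
  refine and_congr_right fun _ => and_congr_left fun _ => forall_congr' fun j =>
    imp_congr_right fun hj => by rw [min_eq_left hj.le]

theorem nodup_cls (D d n R ρ : ℕ) : (cls D d n R ρ).Nodup := List.nodup_range.filter _

theorem exists_cls (D d n : ℕ) (hd : d ≤ D) (hn : 0 < n) (hd0 : 0 < d) :
    ∃ ρ < n * d ^ 2, d ^ n ≤ (cls D d n (D ^ n) ρ).length * (n * d ^ 2) := by
  by_contra h
  push Not at h
  set T := (range (D ^ n)).filter (fun y => ∀ j < n, dig D j y < d) with hT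
  have h1 : T.card = ∑ ρ ∈ range (n * d ^ 2),
      (T.filter (fun y => ∑ j ∈ range n, dig D j y ^ 2 = ρ)).card := by
    refine card_eq_sum_card_fiberwise fun y hy => ?_
    have h2 := (mem_filter.1 hy).2
    simp only [coe_range, Set.mem_Iio]
    calc ∑ j ∈ range n, dig D j y ^ 2 < ∑ _j ∈ range n, d ^ 2 :=
          sum_lt_sum_of_nonempty (nonempty_range_iff.2 hn.ne') fun j hj =>
            Nat.pow_lt_pow_left (h2 j (mem_range.1 hj)) (by norm_num)
      _ = n * d ^ 2 := by simp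
  have h3 : ∀ ρ, (T.filter (fun y => ∑ j ∈ range n, dig D j y ^ 2 = ρ)).card =
      (cls D d n (D ^ n) ρ).length := by
    intro ρ
    rw [← List.toFinset_card_of_nodup (nodup_cls _ _ _ _ _)]
    congr 1
    ext y
    simp only [hT, mem_filter, mem_range, List.mem_toFinset, mem_cls, and_assoc]
  have h4 : T.card * (n * d ^ 2) < (n * d ^ 2) * d ^ n := by
    rw [h1, sum_mul]
    calc _ < ∑ _ρ ∈ range (n * d ^ 2), d ^ n :=
          sum_lt_sum_of_nonempty (nonempty_range_iff.2 (by positivity)) fun ρ hρ => by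
            rw [h3]; exact h ρ (mem_range.1 hρ)
      _ = _ := by simp
  have h5 := card_good D d n hd
  rw [← hT] at h5
  linarith only [Nat.mul_le_mul_right (n * d ^ 2) h5, h4]

theorem beh_large (D d n : ℕ) (hd : d ≤ D) (hn : 0 < n) (hd0 : 0 < d) :
    d ^ n ≤ (beh D d n (D ^ n) (n * d ^ 2)).length * (n * d ^ 2) := by
  obtain ⟨ρ, h1, h2⟩ := exists_cls D d n hd hn hd0
  unfold beh
  generalize hL : (List.range (n * d ^ 2)).filter
    (fun ρ => decide (d ^ n ≤ (cls D d n (D ^ n) ρ).length * (n * d ^ 2))) = L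
  have h3 : ρ ∈ L := by
    rw [← hL]
    simp [h1, h2]
  rcases L with _ | ⟨r, L⟩
  · simp at h3
  · have h4 : r ∈ r :: L := List.mem_cons_self
    rw [← hL, List.mem_filter, decide_eq_true_eq] at h4
    exact h4.2

theorem cls_free {l : ℕ} {a : Fin l → ℕ} {b : ℕ} (ha : ∀ i, 0 < a i) (hb : 0 < b)
    (hs : ∑ i, a i = b) (d n ρ : ℕ) (y : Fin (l + 1) → ℕ)
    (hy : ∀ i, y i ∈ cls (b * d) d n ((b * d) ^ n) ρ)
    (h0 : ∑ i, coeffs a b i * (y i : ℤ) = 0) : ∀ i j, y i = y j := by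
  simp only [mem_cls] at hy
  have hs' : ∑ i, (a i : ℤ) = b := by exact_mod_cast hs
  have h1 : ∀ j < n, ∑ i, coeffs a b i * (dig (b * d) j (y i) : ℤ) = 0 := by
    apply digits_zero ((b * d : ℕ) : ℤ) n
    · intro j hj
      rw [sum_coeffs]
      have k1 : ∀ i, (dig (b * d) j (y i) : ℤ) + 1 ≤ d := fun i => by
        exact_mod_cast (hy i).2.1 j hj
      have k2 : ∑ i, (a i : ℤ) * (dig (b * d) j (y i.castSucc) : ℤ) ≤ b * (d - 1) := by
        rw [← hs', sum_mul]
        exact sum_le_sum fun i _ =>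
          mul_le_mul_of_nonneg_left (by linarith only [k1 i.castSucc]) (by positivity)
      have k3 : 0 ≤ ∑ i, (a i : ℤ) * (dig (b * d) j (y i.castSucc) : ℤ) := by positivity
      have k4 : (b : ℤ) * (dig (b * d) j (y (Fin.last l)) : ℤ) ≤ b * (d - 1) :=
        mul_le_mul_of_nonneg_left (by linarith only [k1 (Fin.last l)]) (by positivity)
      have k5 : 0 ≤ (b : ℤ) * (dig (b * d) j (y (Fin.last l)) : ℤ) := by positivity
      have k6 : (0 : ℤ) < b := by exact_mod_cast hb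
      rw [abs_lt]
      push_cast
      constructor <;> linarith only [hb, k3, k4, k2, k5]
    · rw [← h0]
      simp_rw [sum_mul]
      rw [sum_comm]
      refine sum_congr rfl fun i _ => ?_
      conv_rhs => rw [dig_sum _ n (y i) (hy i).1]
      push_cast
      rw [mul_sum]
      exact sum_congr rfl fun j _ => by ring
  have h2 : ∀ i, ∑ j ∈ range n, (dig (b * d) j (y i) : ℤ) ^ 2 = ρ := fun i => by
    exact_mod_cast (hy i).2.2
  have h3 : ∑ i, (a i : ℤ) * ∑ j ∈ range n,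
      ((dig (b * d) j (y i.castSucc) : ℤ) - dig (b * d) j (y (Fin.last l))) ^ 2 = 0 := by
    have e1 : ∀ i : Fin l, ∑ j ∈ range n,
        ((dig (b * d) j (y i.castSucc) : ℤ) - dig (b * d) j (y (Fin.last l))) ^ 2 =
        2 * ρ - 2 * ∑ j ∈ range n,
          (dig (b * d) j (y i.castSucc) : ℤ) * dig (b * d) j (y (Fin.last l)) := by
      intro i
      conv_rhs => rw [two_mul (ρ : ℤ)]
      nth_rewrite 1 [← h2 i.castSucc]
      rw [← h2 (Fin.last l), mul_sum, ← sum_add_distrib, ← sum_sub_distrib]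
      exact sum_congr rfl fun j _ => by ring
    have e2 : ∑ i, (a i : ℤ) * ∑ j ∈ range n,
        (dig (b * d) j (y i.castSucc) : ℤ) * dig (b * d) j (y (Fin.last l)) = b * ρ := by
      simp_rw [mul_sum]
      rw [sum_comm, ← h2 (Fin.last l), mul_sum]
      refine sum_congr rfl fun j hj => ?_
      have := h1 j (mem_range.1 hj)
      rw [sum_coeffs, sub_eq_zero] at this
      rw [sq, ← mul_assoc, ← this, sum_mul]
      exact sum_congr rfl fun i _ => by ring
    simp_rw [e1, mul_sub, sum_sub_distrib, ← sum_mul, hs', mul_left_comm _ (2 : ℤ), ← mul_sum, e2]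
    ring
  have h4 : ∀ i, y i = y (Fin.last l) := by
    intro i
    induction i using Fin.lastCases with
    | last => rfl
    | cast i =>
      have k1 := (sum_eq_zero_iff_of_nonneg (fun i _ => by positivity)).1 h3 i (mem_univ i)
      have k2 := (mul_eq_zero.1 k1).resolve_left (by exact_mod_cast (ha i).ne')
      rw [dig_sum _ n _ (hy i.castSucc).1, dig_sum _ n _ (hy (Fin.last l)).1]
      refine sum_congr rfl fun j hj => ?_
      have k3 := (sum_eq_zero_iff_of_nonneg (fun j _ => by positivity)).1 k2 j hj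
      rw [sq_eq_zero_iff, sub_eq_zero, Nat.cast_inj] at k3
      rw [k3]
  intro i j
  rw [h4 i, h4 j]

variable {α : Type} [Enc α]

theorem pt1 {β γ : Type} [Enc β] [Enc γ] {f : α → γ} (h : PT f) :
    PT (fun x : α × β => f x.1) := h.comp' PT.id'.fst

theorem pb1 {β : Type} [Enc β] {f : α → ℕ} (h : PB f) : PB (fun x : α × β => f x.1) :=
  h.comp PT.id'.fst

theorem dig_pt {D j y : α → ℕ} (h1 : PT D) (h2 : PT j) (h3 : PB j) (h4 : PT y) :
    PT (fun x => dig (D x) (j x) (y x)) := by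
  unfold dig; fun_prop

theorem digm_pt {D n y : α → ℕ} (h1 : PT D) (h2 : PT n) (h3 : PB n) (h4 : PT y) :
    PT (fun x : α × ℕ => dig (D x.1) (min x.2 (n x.1)) (y x.1)) :=
  dig_pt (pt1 h1) (PT.min PT.id'.snd (pt1 h2)) (PB.min_right (pb1 h3)) (pt1 h4)

theorem nrm_pt {D n y : α → ℕ} (h1 : PT D) (h2 : PT n) (h3 : PB n) (h4 : PT y) :
    PT (fun x => nrm (D x) (n x) (y x)) := by
  have k1 : PT (fun x : α × ℕ => dig (D x.1) (min x.2 (n x.1)) (y x.1) ^ 2) :=
    PT.pow (digm_pt h1 h2 h3 h4) (PT.const 2) (PB.const 2)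
  have k2 := PT.map (f := fun x j => dig (D x) (min j (n x)) (y x) ^ 2) k1 (PT.range h2 h3)
  exact k2.sum.of_eq fun _ => rfl

theorem cls_pt {D d n R ρ : α → ℕ} (h1 : PT D) (h2 : PT d) (h3 : PT n) (h4 : PB n)
    (h5 : PT R) (h6 : PB R) (h7 : PT ρ) : PT (fun x => cls (D x) (d x) (n x) (R x) (ρ x)) := by
  have k0 : PT (fun x : α × ℕ => x.2) := PT.id'.snd
  have j1 := digm_pt (α := α × ℕ) (pt1 h1) (pt1 h3) (pb1 h4) k0
  have j2 : PT (fun x : α × ℕ => d x.1) := pt1 h2
  have k1 := PP.lt j1 (pt1 (β := ℕ) j2)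
  have k2 : PP (fun x : α × ℕ => ∀ j < n x.1, dig (D x.1) (min j (n x.1)) x.2 < d x.1) :=
    PP.forall_lt (p := fun (x : α × ℕ) j => dig (D x.1) (min j (n x.1)) x.2 < d x.1)
      (pt1 h3) (pb1 h4) k1
  have k3 : PP (fun x : α × ℕ => nrm (D x.1) (n x.1) x.2 = ρ x.1) :=
    PP.eq (nrm_pt (pt1 h1) (pt1 h3) (pb1 h4) k0) (pt1 h7)
  have k4 := PT.filter (f := fun x y => decide ((∀ j < n x, dig (D x) (min j (n x)) y < d x) ∧
      nrm (D x) (n x) y = ρ x)) (PT.decide (PP.and k2 k3)) (PT.range h5 h6)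
  exact k4.of_eq fun _ => rfl

theorem beh_pt {D d n R K : α → ℕ} (h1 : PT D) (h2 : PT d) (h3 : PT n) (h4 : PB n)
    (h5 : PT R) (h6 : PB R) (h7 : PT K) (h8 : PB K) :
    PT (fun x => beh (D x) (d x) (n x) (R x) (K x)) := by
  have k0 : PT (fun x : α × ℕ => x.2) := PT.id'.snd
  have k1 : PT (fun x : α × ℕ => cls (D x.1) (d x.1) (n x.1) (R x.1) x.2) :=
    cls_pt (pt1 h1) (pt1 h2) (pt1 h3) (pb1 h4) (pt1 h5) (pb1 h6) k0
  have k2 : PT (fun x => d x ^ n x) := PT.pow h2 h3 h4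
  have k3 : PP (fun x : α × ℕ =>
      d x.1 ^ n x.1 ≤ (cls (D x.1) (d x.1) (n x.1) (R x.1) x.2).length * K x.1) :=
    PP.le (pt1 k2) (PT.mul k1.length (pt1 h7))
  have k4 := PT.filter
    (f := fun x ρ => decide (d x ^ n x ≤ (cls (D x) (d x) (n x) (R x) ρ).length * K x))
    (PT.decide k3) (PT.range h7 h8)
  exact (cls_pt h1 h2 h3 h4 h5 h6 (PT.headD k4 (PT.const 0))).of_eq fun _ => rfl

/-- the dimension -/
def dim (B : ℕ) : ℕ :=
  ((List.range (B + 1)).filter (fun i => decide (2 ^ (min i B * min i B) ≤ B))).length + 6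

theorem dim_pt {B : α → ℕ} (h1 : PT B) (h2 : PB B) : PT (fun x => dim (B x)) ∧
    PB (fun x => dim (B x)) := by
  have h3 : PT (fun x : α × ℕ => min x.2 (B x.1)) := PT.min PT.id'.snd (pt1 h1)
  have h4 : PB (fun x : α × ℕ => min x.2 (B x.1)) := PB.min_right (pb1 h2)
  have h5 : PT (fun x => (List.range (B x + 1)).filter
      (fun i => decide (2 ^ (min i (B x) * min i (B x)) ≤ B x))) :=
    PT.filter (f := fun x i => decide (2 ^ (min i (B x) * min i (B x)) ≤ B x))
      (PT.decide (PP.le (PT.pow (PT.const 2) (h3.mul h3) (h4.mul h4)) (pt1 h1)))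
      (PT.range (h1.add (PT.const 1)) (h2.add (PB.const 1)))
  exact ⟨h5.length.add (PT.const 6), (PB.length h5).add (PB.const 6)⟩

theorem dim_spec (B : ℕ) (hB : 0 < B) :
    B < 2 ^ (dim B * dim B) ∧ 2 ^ (dim B * dim B) ≤ 2 ^ 98 * B ^ 2 ∧ 6 ≤ dim B := by
  have hex : ∃ i, B < 2 ^ (i * i) :=
    ⟨B, Nat.lt_two_pow_self.trans_le (Nat.pow_le_pow_right (by norm_num) (Nat.le_mul_self B))⟩
  set m := Nat.find hex with hm
  have h1 : B < 2 ^ (m * m) := Nat.find_spec hex
  have h2 : m ≤ B := Nat.find_min' hex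
    (Nat.lt_two_pow_self.trans_le (Nat.pow_le_pow_right (by norm_num) (Nat.le_mul_self B)))
  have h3 : dim B = m + 6 := by
    unfold dim
    rw [← List.toFinset_card_of_nodup (List.nodup_range.filter _)]
    congr 1
    rw [← card_range m]
    congr 1
    ext i
    simp only [List.mem_toFinset, List.mem_filter, List.mem_range, decide_eq_true_eq, mem_range]
    constructor
    · rintro ⟨k1, k2⟩
      rw [min_eq_left (by omega)] at k2
      by_contra k3
      have : 2 ^ (m * m) ≤ 2 ^ (i * i) :=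
        Nat.pow_le_pow_right (by norm_num) (Nat.mul_le_mul (by omega) (by omega))
      omega
    · intro k1
      rw [min_eq_left (by omega)]
      exact ⟨by omega, not_lt.1 (Nat.find_min hex k1)⟩
  have h4 : m ≠ 0 := by
    intro h
    rw [h] at h1
    simp at h1
    omega
  obtain ⟨m', hm'⟩ : ∃ m', m = m' + 1 := ⟨m - 1, by omega⟩
  have h5 : 2 ^ (m' * m') ≤ B := not_lt.1 (Nat.find_min hex (by omega))
  rw [h3]
  refine ⟨h1.trans_le (Nat.pow_le_pow_right (by norm_num) (Nat.mul_le_mul (by omega) (by omega))),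
    ?_, by omega⟩
  calc 2 ^ ((m + 6) * (m + 6)) ≤ 2 ^ (98 + (m' * m') * 2) :=
        Nat.pow_le_pow_right (by norm_num) (by
          rw [hm']
          zify
          linarith only [sq_nonneg ((m' : ℤ) - 7)])
    _ = 2 ^ 98 * (2 ^ (m' * m')) ^ 2 := by rw [pow_add, pow_mul]
    _ ≤ 2 ^ 98 * B ^ 2 := by gcongr

end Pool.Agent.MP_f29e3e_lc.H57

end

-- part MP_f29e3e_lc.H57.Dense
section

/-!
Hardness on dense instances.
-/

set_option autoImplicit false

namespace Pool.Agent.MP_f29e3e_lc.H57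

open Finset Pool.Agent.Lib.Cx Function

variable {l : ℕ} {a : Fin l → ℕ} {b : ℕ}

theorem gadget' (hl : 2 ≤ l) (ha : ∀ i, 0 < a i) (hb : 0 < b) :
    ∃ (E : List (Clause3 ℕ) → List ℕ) (k M B : List (Clause3 ℕ) → ℕ),
      PT E ∧ PT k ∧ PT M ∧ PT B ∧ PB B ∧ ∀ φ, (∑ i, a i + b) ^ 2 < M φ ∧ 0 < B φ ∧
        (∀ g ∈ E φ, g ≤ B φ ∧ 0 < g % M φ ∧ g % M φ ≤ ∑ i, a i + b) ∧
        (Sat3 φ ↔ YesInstance (coeffs a b) (zs (E φ), k φ)) := by
  obtain ⟨E, k, M, B, h1, h2, h3, h4, h5, h⟩ := gadget hl a b ha hb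
  have hs : 0 < ∑ i, a i := sum_pos (fun i _ => ha i) ⟨⟨0, by omega⟩, mem_univ _⟩
  refine ⟨E, k, M, B, h1, h2, h3, h4, h5, fun φ => ⟨(h φ).1, (h φ).2.1, fun g hg => ?_,
    (h φ).2.2.2⟩⟩
  obtain ⟨-, k1, k2⟩ := (h φ).2.2.1 g hg
  omega

/-- Non-invariant equations: instances of positive density. -/
theorem hard_ne (hl : 2 ≤ l) (ha : ∀ i, 0 < a i) (hb : 0 < b) (hs : ∑ i, a i ≠ b) :
    ∃ C : ℕ, HardOn (fun I : Finset ℤ × ℕ => ∀ x ∈ I.1, 0 < x ∧ x ≤ (C * I.1.card : ℕ))
      (YesInstance (coeffs a b)) := by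
  obtain ⟨E, k, M, B, h1, h2, h3, h4, h5, h⟩ := gadget' hl ha hb
  have hσ : 0 < ∑ i, a i + b := by omega
  have hY : ∀ n : ℕ, ∀ y ∈ List.range n, y < n := fun n y hy => List.mem_range.1 hy
  refine ⟨((∑ i, a i + b) ^ 2 + 1) * (2 * (∑ i, a i + b)), hardOn_sat3.of_red
    (fun φ => (zs (gad (∑ i, a i + b) (M φ) (E φ) ++
      pad (∑ i, a i + b) (B φ + 1) (List.range (B φ + 1))), k φ + (B φ + 1)))
    ((padded_pt hσ h3 (by fun_prop) (by fun_prop) h1 (by fun_prop) (fun φ => (h φ).2.2.1)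
      (fun φ => Nat.lt_succ_self _) (fun φ => hY _)).prodMk (by fun_prop)) fun φ _ => ⟨?_, ?_⟩⟩
  · intro x hx
    obtain ⟨k1, k2⟩ := padded_bound hσ (h φ).2.2.1 (Nat.lt_succ_self _) (hY _) hx
    refine ⟨k1, k2.trans ?_⟩
    have k3 := padded_card (M := M φ) (E := E φ) hσ (hY (B φ + 1)) List.nodup_range
    rw [List.length_range] at k3
    rw [Nat.cast_le, mul_assoc (_ + 1)]
    exact Nat.mul_le_mul_left _ (Nat.mul_le_mul_left _ k3)
  · have k1 := yes_self (pad_free_ne ha hb hs (Nat.succ_pos (B φ)) (hY _))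
    rw [card_pad hσ (hY _) List.nodup_range, List.length_range] at k1
    rw [padded ha hb (h φ).1 (h φ).2.2.1 (Nat.lt_succ_self _) (hY _) _ k1.1 k1.2]
    exact (h φ).2.2.2

theorem beh_est (c b n N : ℕ) (hc : 0 < c) (hb : 0 < b) (hn : 6 ≤ n)
    (h : (2 ^ n) ^ n ≤ N * (n * (2 ^ n) ^ 2)) :
    ((c * (b * 2 ^ n) ^ n : ℕ) : ℝ) ≤
      N * Real.exp (2 * Real.log (8 * c * b) * √(Real.log N)) := by
  have h1 : n * (2 ^ n) ^ 2 ≤ 8 ^ n := by
    calc n * (2 ^ n) ^ 2 ≤ 2 ^ n * (2 ^ n) ^ 2 := Nat.mul_le_mul_right _ Nat.lt_two_pow_self.le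
      _ = 8 ^ n := by rw [← pow_succ', ← pow_mul, mul_comm, pow_mul]; norm_num
  have h2 : (2 ^ n) ^ n ≤ N * 8 ^ n := h.trans (Nat.mul_le_mul_left _ h1)
  have h3 : c * (b * 2 ^ n) ^ n ≤ N * (8 * c * b) ^ n := by
    have : c ≤ c ^ n := Nat.le_self_pow (by omega) c
    calc c * (b * 2 ^ n) ^ n = c * b ^ n * (2 ^ n) ^ n := by rw [mul_pow]; ring
      _ ≤ c ^ n * b ^ n * (N * 8 ^ n) := by gcongr
      _ = N * (8 * c * b) ^ n := by rw [mul_pow, mul_pow]; ring
  have h4 : 2 ^ (n * n) ≤ N ^ 2 := by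
    have k1 : (8 ^ n) ^ 2 ≤ 2 ^ (n * n) := by
      rw [show (8 : ℕ) = 2 ^ 3 by norm_num, ← pow_mul, ← pow_mul]
      exact Nat.pow_le_pow_right (by norm_num) (by nlinarith only [hn])
    have k2 : (2 ^ (n * n)) ^ 2 ≤ N ^ 2 * (8 ^ n) ^ 2 := by
      rw [← mul_pow, pow_mul]
      exact Nat.pow_le_pow_left h2 2
    have k3 : 2 ^ (n * n) * 2 ^ (n * n) ≤ N ^ 2 * 2 ^ (n * n) := by
      rw [← sq]
      exact k2.trans (Nat.mul_le_mul_left _ k1)
    exact Nat.le_of_mul_le_mul_right k3 (by positivity)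
  have h5 : (n : ℝ) ≤ 2 * √(Real.log N) := by
    have k1 : ((2 : ℝ)) ^ (n * n) ≤ (N : ℝ) ^ 2 := by exact_mod_cast h4
    have k2 := Real.log_le_log (by positivity) k1
    rw [Real.log_pow, Real.log_pow] at k2
    push_cast at k2
    have k3 := Real.log_two_gt_d9
    have k4 : ((n : ℝ) / 2) ^ 2 ≤ Real.log N := by nlinarith only [k2, k3]
    have k5 := Real.le_sqrt_of_sq_le k4
    linarith only [k5]
  have h6 : (1 : ℝ) ≤ 8 * c * b := by
    have : 1 ≤ 8 * c * b := Nat.succ_le_of_lt (by positivity)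
    exact_mod_cast this
  have h7 : ((8 * c * b : ℝ)) ^ n ≤ Real.exp (2 * Real.log (8 * c * b) * √(Real.log N)) := by
    rw [← Real.exp_log (show (0 : ℝ) < (8 * c * b) ^ n by positivity), Real.log_pow]
    apply Real.exp_le_exp.2
    nlinarith only [Real.log_nonneg h6, h5]
  calc _ ≤ ((N * (8 * c * b) ^ n : ℕ) : ℝ) := by exact_mod_cast h3
    _ ≤ _ := by
      push_cast
      exact mul_le_mul_of_nonneg_left h7 (by positivity)

/-- Invariant equations: instances of Behrend density. -/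
theorem hard_eq (hl : 2 ≤ l) (ha : ∀ i, 0 < a i) (hb : 0 < b) (hs : ∑ i, a i = b) :
    ∃ C : ℝ, HardOn (fun I : Finset ℤ × ℕ => ∀ x ∈ I.1, 0 < x ∧
      (x : ℝ) ≤ I.1.card * Real.exp (C * √(Real.log I.1.card))) (YesInstance (coeffs a b)) := by
  obtain ⟨E, k, M, B, h1, h2, h3, h4, h5, h⟩ := gadget' hl ha hb
  have hσ : 0 < ∑ i, a i + b := by omega
  obtain ⟨d1, d2⟩ := dim_pt h4 h5
  have d3 : PT (fun φ => 2 ^ dim (B φ)) := PT.pow (PT.const 2) d1 d2
  have d4 : PT (fun φ => b * 2 ^ dim (B φ)) := (PT.const b).mul d3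
  have d5 : PT (fun φ => (b * 2 ^ dim (B φ)) ^ dim (B φ)) := PT.pow d4 d1 d2
  have d6 : PB (fun φ => (b * 2 ^ dim (B φ)) ^ dim (B φ)) := by
    refine (PB.pow ((PB.const (2 ^ 98)).mul (PB.pow h5 2)) (b + 1)).mono fun φ => ?_
    obtain ⟨-, k2, k3⟩ := dim_spec (B φ) (h φ).2.1
    refine le_trans ?_ (Nat.pow_le_pow_left k2 _)
    generalize dim (B φ) = n at k3
    calc (b * 2 ^ n) ^ n ≤ (2 ^ b * 2 ^ n) ^ n := by gcongr; exact Nat.lt_two_pow_self.le
      _ = 2 ^ ((b + n) * n) := by rw [← pow_add, ← pow_mul]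
      _ ≤ _ := by
        rw [← pow_mul]
        exact Nat.pow_le_pow_right (by norm_num) (by
          linarith only [Nat.mul_le_mul_left (b * n) (show 1 ≤ n by omega)])
  have d7 : PT (fun φ => dim (B φ) * (2 ^ dim (B φ)) ^ 2) :=
    d1.mul (PT.pow d3 (PT.const 2) (PB.const 2))
  have d8 : PB (fun φ => dim (B φ) * (2 ^ dim (B φ)) ^ 2) := by
    refine (d2.mul (PB.pow d6 2)).mono fun φ => ?_
    obtain ⟨-, -, k3⟩ := dim_spec (B φ) (h φ).2.1
    generalize dim (B φ) = n at k3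
    refine Nat.mul_le_mul_left _ (Nat.pow_le_pow_left ?_ _)
    exact (Nat.le_mul_of_pos_left _ hb).trans (Nat.le_self_pow (n := n) (by omega) _)
  have d9 := beh_pt d4 d3 d1 d2 d5 d6 d7 d8
  have hY : ∀ n K : ℕ, ∀ y ∈ beh (b * 2 ^ n) (2 ^ n) n ((b * 2 ^ n) ^ n) K,
      y < (b * 2 ^ n) ^ n := fun n K y hy => (mem_cls.1 hy).1
  have hR : ∀ φ, B φ < (b * 2 ^ dim (B φ)) ^ dim (B φ) := by
    intro φ
    refine (dim_spec (B φ) (h φ).2.1).1.trans_le ?_
    rw [pow_mul]
    exact Nat.pow_le_pow_left (Nat.le_mul_of_pos_left _ hb) _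
  refine ⟨2 * Real.log (8 * (((∑ i, a i + b) ^ 2 + 1) * (2 * (∑ i, a i + b)) : ℕ) * b),
    hardOn_sat3.of_red _
    ((padded_pt hσ h3 d5 d6 h1 d9 (fun φ => (h φ).2.2.1) hR (fun φ => hY _ _)).prodMk
      (h2.add d9.length)) fun φ _ => ⟨?_, ?_⟩⟩
  · intro x hx
    obtain ⟨k1, k2⟩ := padded_bound hσ (h φ).2.2.1 (hR φ) (hY _ _) hx
    refine ⟨k1, ?_⟩
    have k3 := padded_card (M := M φ) (E := E φ) hσ
      (hY (dim (B φ)) (dim (B φ) * (2 ^ dim (B φ)) ^ 2)) (nodup_cls _ _ _ _ _)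
    obtain ⟨-, -, k4⟩ := dim_spec (B φ) (h φ).2.1
    have k5 := beh_large (b * 2 ^ dim (B φ)) (2 ^ dim (B φ)) (dim (B φ))
      (Nat.le_mul_of_pos_left _ hb) (by omega) (by positivity)
    refine le_trans ?_ (beh_est _ b _ _ (by positivity) hb k4
      (k5.trans (Nat.mul_le_mul_right _ k3)))
    rw [mul_assoc]
    exact_mod_cast k2
  · have k0 := pad_free_eq hb hs (hY (dim (B φ)) (dim (B φ) * (2 ^ dim (B φ)) ^ 2))
      (fun y hy h0 => cls_free ha hb hs _ _ _ y hy h0)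
    have k1 := yes_self k0
    rw [card_pad hσ (hY _ _) (nodup_cls _ _ _ _ _)] at k1
    rw [padded ha hb (h φ).1 (h φ).2.2.1 (hR φ) (hY _ _) _ k1.1 k1.2]
    exact (h φ).2.2.2

theorem count_spec (Q : ℕ → Prop) [DecidablePred Q] (R : ℕ) (h0 : Q 0)
    (h1 : ∀ i j, i ≤ j → Q j → Q i) (h2 : ¬ Q (R + 1)) :
    Q ((List.range R).filter (fun j => decide (Q (j + 1)))).length ∧
      ¬ Q (((List.range R).filter (fun j => decide (Q (j + 1)))).length + 1) := by
  have hex : ∃ j, ¬ Q (j + 1) := ⟨R, h2⟩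
  have h3 : ((List.range R).filter (fun j => decide (Q (j + 1)))).length = Nat.find hex := by
    rw [← List.toFinset_card_of_nodup (List.nodup_range.filter _), ← card_range (Nat.find hex)]
    congr 1
    ext i
    simp only [List.mem_toFinset, List.mem_filter, List.mem_range, decide_eq_true_eq, mem_range]
    constructor
    · rintro ⟨-, k2⟩
      by_contra k3
      exact Nat.find_spec hex (h1 _ _ (by omega) k2)
    · intro k1
      exact ⟨k1.trans_le (Nat.find_min' hex h2), not_not.1 (Nat.find_min hex k1)⟩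
  rw [h3]
  refine ⟨?_, Nat.find_spec hex⟩
  rcases h4 : Nat.find hex with _ | m
  · exact h0
  · exact not_not.1 (Nat.find_min hex (by omega))

/-- All equations: a polynomial algorithm for instances of positive density gives `NP ⊆ P`. -/
theorem turing (hl : 2 ≤ l) (ha : ∀ i, 0 < a i) (hb : 0 < b) :
    ∃ C : ℕ, ∀ D : Finset ℤ × ℕ → Bool, PT D →
      (∀ I : Finset ℤ × ℕ, (∀ x ∈ I.1, 0 < x ∧ x ≤ (C * I.1.card : ℕ)) →
        (D I = true ↔ YesInstance (coeffs a b) I)) → N68a2faeb.NP ⊆ N68a2faeb.P := by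
  classical
  obtain ⟨E, k, M, B, h1, h2, h3, h4, h5, h⟩ := gadget' hl ha hb
  have hσ : 0 < ∑ i, a i + b := by omega
  have hY : ∀ n : ℕ, ∀ y ∈ List.range n, y < n := fun n y hy => List.mem_range.1 hy
  refine ⟨((∑ i, a i + b) ^ 2 + 1) * (2 * (∑ i, a i + b)), fun D hD hc L hL => ?_⟩
  obtain ⟨g, hg, e⟩ := hardOn_sat3 L hL
  have p0 : PT (fun φ => B φ + 1) := h4.add (PT.const 1)
  have p0' : PB (fun φ => B φ + 1) := h5.add (PB.const 1)
  have p1 := padded_pt hσ h3 p0 p0' h1 (PT.range p0 p0') (fun φ => (h φ).2.2.1)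
    (fun φ => Nat.lt_succ_self _) (fun φ => hY _)
  have p2 := padded_pt (E := fun _ => []) hσ h3 p0 p0' (PT.const _) (PT.range p0 p0')
    (fun φ => by simp only [List.not_mem_nil, IsEmpty.forall_iff, implies_true]) (fun φ => Nat.lt_succ_self _) (fun φ => hY _)
  have p3 : PT (fun x : List (Clause3 ℕ) × ℕ => x.2 + 1) := PT.id'.snd.add (PT.const 1)
  have p4 := hD.comp' ((pt1 p2).prodMk p3)
  have p5 := (PT.filter (f := fun φ j => D (zs (gad (∑ i, a i + b) (M φ) [] ++
    pad (∑ i, a i + b) (B φ + 1) (List.range (B φ + 1))), j + 1)) p4 (PT.range p0 p0')).length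
  have p6 := (hD.comp' (p1.prodMk (h2.add p5))).comp' hg
  refine (p6.of_eq fun w => ?_).isPolyTime
  have dn : ∀ (φ) (E' : List ℕ), (∀ g ∈ E', g ≤ B φ ∧ 0 < g % M φ ∧ g % M φ ≤ ∑ i, a i + b) →
      ∀ j, D (zs (gad (∑ i, a i + b) (M φ) E' ++
        pad (∑ i, a i + b) (B φ + 1) (List.range (B φ + 1))), j) = true ↔
      YesInstance (coeffs a b) (zs (gad (∑ i, a i + b) (M φ) E' ++
        pad (∑ i, a i + b) (B φ + 1) (List.range (B φ + 1))), j) := by
    intro φ E' hE' j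
    refine hc _ fun x hx => ?_
    obtain ⟨k1, k2⟩ := padded_bound hσ hE' (Nat.lt_succ_self _) (hY _) hx
    refine ⟨k1, k2.trans ?_⟩
    have k3 := padded_card (M := M φ) (E := E') hσ (hY (B φ + 1)) List.nodup_range
    rw [List.length_range] at k3
    rw [Nat.cast_le, mul_assoc (_ + 1)]
    exact Nat.mul_le_mul_left _ (Nat.mul_le_mul_left _ k3)
  rw [Bool.eq_iff_iff, (e w).2, dn _ _ (h _).2.2.1]
  generalize g w = φ
  have k1 := count_spec (fun j => YesInstance (coeffs a b)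
    (zs (pad (∑ i, a i + b) (B φ + 1) (List.range (B φ + 1))), j)) (B φ + 1)
    ⟨∅, empty_subset _, le_rfl, fun z hz => absurd (hz 0) (notMem_empty _)⟩
    (fun i j hij ⟨S, k1, k2, k3⟩ => ⟨S, k1, hij.trans k2, k3⟩) (by
      rintro ⟨S, k1, k2, -⟩
      have k3 := card_le_card k1
      simp only [card_pad hσ (hY _) List.nodup_range, List.length_range] at k2 k3
      omega)
  have k2 : (fun j => D (zs (gad (∑ i, a i + b) (M φ) [] ++
      pad (∑ i, a i + b) (B φ + 1) (List.range (B φ + 1))), j + 1)) = fun j => decide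
      (YesInstance (coeffs a b)
        (zs (pad (∑ i, a i + b) (B φ + 1) (List.range (B φ + 1))), j + 1)) := by
    funext j
    rw [Bool.eq_iff_iff, dn φ [] (by simp only [List.not_mem_nil, IsEmpty.forall_iff, implies_true]), decide_eq_true_eq]
    rfl
  rw [k2, padded ha hb (h φ).1 (h φ).2.2.1 (Nat.lt_succ_self _) (hY _) _ k1.1 k1.2]
  exact (h φ).2.2.2

end Pool.Agent.MP_f29e3e_lc.H57

end
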